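import Pool.Agent.H77.PM.Targets

/-! TWO (board `pmh_modules`). -/

set_option autoImplicit false

open Set Filter Topology

namespace Pool.Agent.H79.PM

open Pool.Agent.H77.PM

theorem pf_TWO (hPER : T_PER) (hTIL : T_TIL) (hISA : T_ISA) (hISB : T_ISB) (hANA : T_ANA) :
    T_TWO := by
  intro r hD2 ι _ ar hr Z _ _ _ _ k Y hY
  obtain ⟨hdec, htil, hmt, hmd⟩ := hTIL ι ar Z r hr
  by_cases h : ∀ n, ∀ x ∈ Y n, FD x
  · -- all codes have finitely many distances
    have key := hD2 (ℝ × (ι → Z)) k (fun n => til r hr '' Y n) (by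
      intro n
      obtain ⟨h1, h2, h3⟩ := hY n
      refine ⟨?_, ?_⟩
      · have := hANA _ _ (Y n) univ (til r hr) h1 MeasurableSet.univ hmt
        rwa [inter_univ] at this
      · rintro y ⟨x, hx, rfl⟩ f hf hfix
        obtain ⟨S, p, hp, rfl⟩ := h2 x hx
        refine ⟨re (code S p) f, ?_, htil (code S p) f⟩
        have h4 : re (code S p) f = code S (p ∘ f) := rfl
        rw [h4]
        refine h3 S p (p ∘ f) hp hx (hp.1.comp hf) fun i hi => ?_
        simp only [Function.comp_apply]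
        rw [hfix i hi])
    rcases key with ⟨D, hD, hDY⟩ | ⟨F, hF, hFY, hFne⟩
    · left
      refine ⟨dec r '' D, hD.image _, fun x hx => ?_⟩
      obtain ⟨n, hn⟩ := mem_iUnion.1 hx
      obtain ⟨y, hy, g, hg⟩ := hDY (til r hr x) (mem_iUnion.2 ⟨n, x, hn, rfl⟩)
      obtain ⟨S, hS⟩ := (hY n).2.1 x hn
      exact ⟨dec r y, ⟨y, hy, rfl⟩, (hISB ι ar Z r hr S x y g hS hg).2.1⟩
    · right
      have hGY : ∀ u, dec r (F u) ∈ ⋃ n, Y n ∧ FD (dec (ι := ι) (ar := ar) r (F u)) ∧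
          til r hr (dec r (F u)) = F u := by
        intro u
        obtain ⟨n, hn⟩ := mem_iUnion.1 (hFY u)
        obtain ⟨x, hx, hxu⟩ := hn
        have h1 : dec r (F u) = x := by rw [← hxu]; exact hdec x
        rw [h1]
        exact ⟨mem_iUnion.2 ⟨n, hx⟩, h n x hx, hxu⟩
      refine ⟨fun u => dec r (F u), hmd.comp hF, fun u => (hGY u).1, fun u v huv hS => ?_⟩
      obtain ⟨-, g, hg⟩ := hISA ι ar Z r hr _ _ (hGY u).2.1 hS
      rw [(hGY u).2.2, (hGY v).2.2] at hg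
      exact hFne u v huv ⟨g, hg⟩
  · push Not at h
    obtain ⟨n, x, hx, hFD⟩ := h
    obtain ⟨S, p, hp, rfl⟩ := (hY n).2.1 x hx
    right
    refine hPER ι ar Z S p (k n) (⋃ n, Y n) hp.1 ?_ ?_
    · intro hfin
      refine hFD (hfin.subset ?_)
      rintro d ⟨i, j, rfl⟩
      exact ⟨(p i, p j), rfl⟩
    · intro q hq hfix
      exact mem_iUnion.2 ⟨n, (hY n).2.2 S p q hp hx hq hfix⟩

end Pool.Agent.H79.PM
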